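import Pool.Agent.Helper67.KPG.St3
import Pool.Agent.Helper67.KPG.St2

/-!
# Module DPH of project KP: the derivative of the chart
-/

set_option autoImplicit false

namespace Pool.Agent.Helper18.KPG

open Pool.Agent.Helper67.NO Pool.Agent.Helper52.KP Pool.Agent.Helper67.KPG

universe u

private lemma ev_diff {m : ℕ} (f : MvPolynomial (Fin m) ℂ) :
    Differentiable ℂ (fun z : Fin m → ℂ => ev f z) := by
  induction f using MvPolynomial.induction_on with
  | C a => simp only [ev, MvPolynomial.eval_C]; exact differentiable_const a
  | add p q hp hq => simp only [ev, map_add] at *; exact hp.add hq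
  | mul_X p i hp =>
    simp only [ev, map_mul, MvPolynomial.eval_X] at *
    exact hp.mul (differentiable_apply i)

variable {g : Type u} [LieRing g] [LieAlgebra ℂ g] [FiniteDimensional ℂ g]

private lemma co_add (x y : g) : co (x + y) = co x + co y := by
  funext i; simp [co]

private lemma co_smul (c : ℂ) (x : g) : co (c • x) = c • co x := by
  funext i; simp [co]

private lemma line_deriv {m n : ℕ} (F : (Fin m → ℂ) → (Fin n → ℂ)) (z v : Fin m → ℂ)
    (hd : DifferentiableAt ℂ F z) : HasDerivAt (fun s : ℂ => F (z + s • v)) (fderiv ℂ F z v) 0 :=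
  hd.hasFDerivAt.hasLineDerivAt v

private lemma line_lin {n : ℕ} (a b : Fin n → ℂ) : HasDerivAt (fun s : ℂ => a + s • b) b 0 := by
  have h6 : HasDerivAt (fun s : ℂ => s • b) ((1 : ℂ) • b) 0 :=
    (hasDerivAt_id (0 : ℂ)).smul_const _
  rw [one_smul] at h6
  exact h6.const_add _

private lemma sum_add {m : ℕ} (p : Fin m → Prop) [DecidablePred p] (E : Fin m → g) (z : Fin m → ℂ)
    (i : Fin m) (s : ℂ) (v : Fin m → ℂ) (hv : v = Pi.single i (1 : ℂ)) :
    (∑ j, if p j then (z + s • v) j • E j else 0) =
      (∑ j, if p j then z j • E j else 0) + s • (if p i then E i else 0) := by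
  have h : ∀ j, (if p j then (z + s • v) j • E j else 0) =
      (if p j then z j • E j else 0) + (if j = i then s • (if p i then E i else 0) else 0) := by
    intro j
    by_cases hji : j = i
    · subst hji
      by_cases hw : p j
      · simp [hw, add_smul, hv]
      · simp [hw]
    · by_cases hw : p j
      · simp [hw, hji, hv]
      · simp [hw, hji]
  rw [Finset.sum_congr rfl fun j _ => h j, Finset.sum_add_distrib, Finset.sum_ite_eq']
  simp

/-- **DPH**: the derivative of the chart. -/
theorem hDPH (hDXP : StDXP.{u}) (hPHI : StPHI.{u}) (hBAS : StBAS.{u}) (hGPF : StGPF.{u}) :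
    StDPH.{u} := by
  intro g _ _ _ e h f N pr hSl m w E hBs z i
  obtain ⟨hu, -, hPV, -⟩ := hPHI g e h f N pr hSl m w E hBs
  have hF : SlF e h f N pr := hBAS g e h f N pr hSl
  have hG : GPs g := hGPF g
  have hd : DifferentiableAt ℂ (fun z => co (phi w E z)) z := by
    rw [differentiableAt_pi]
    intro k
    obtain ⟨P, hP⟩ := hPV k
    have h1 : (fun z => co (phi w E z) k) = fun z => ev P z := funext hP
    rw [h1]
    exact ev_diff P z
  have h1 := line_deriv (fun z => co (phi w E z)) z (Pi.single i (1 : ℂ)) hd
  generalize hv : (Pi.single i (1 : ℂ) : Fin m → ℂ) = v at h1 ⊢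
  have h2 : HasDerivAt (fun s : ℂ => co (phi w E (z + s • v))) (co (tv N w E z i)) 0 := by
    rcases hBs.w01 i with hw | hw
    · have h3 : (fun s : ℂ => co (phi w E (z + s • v))) =
          fun s : ℂ => co (expAd (uu w E z + s • E i) (yy w E z)) := by
        funext s
        have h7 : uu w E (z + s • v) = uu w E z + s • E i := by
          unfold uu
          rw [sum_add (fun j => w j = 0) E z i s v hv.symm, if_pos hw]
        have h8 : yy w E (z + s • v) = yy w E z := by
          unfold yy
          rw [sum_add (fun j => w j = 1) E z i s v hv.symm, if_neg (by omega), smul_zero, add_zero]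
        unfold phi
        rw [h7, h8]
      rw [h3]
      have h4 := hDXP g (uu w E z) (E i) N (hF.nil0 (uu w E z) (hu z)) (yy w E z)
      have h5 : tv N w E z i = expAd (uu w E z) ⁅th N (uu w E z) (E i), yy w E z⁆ := by
        unfold tv phi
        rw [if_pos hw, hG.lie ⊤ (expAd (uu w E z)) (hG.exp ⊤ (uu w E z) trivial)]
      rw [h5]
      exact h4
    · have h3 : (fun s : ℂ => co (phi w E (z + s • v))) =
          fun s : ℂ => co (expAd (uu w E z) (yy w E z)) + s • co (expAd (uu w E z) (E i)) := by
        funext s
        have h7 : uu w E (z + s • v) = uu w E z := by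
          unfold uu
          rw [sum_add (fun j => w j = 0) E z i s v hv.symm, if_neg (by omega), smul_zero, add_zero]
        have h8 : yy w E (z + s • v) = yy w E z + s • E i := by
          unfold yy
          rw [sum_add (fun j => w j = 1) E z i s v hv.symm, if_pos hw]
        unfold phi
        rw [h7, h8, map_add, map_smul, co_add, co_smul]
      rw [h3]
      have h5 : tv N w E z i = expAd (uu w E z) (E i) := by
        unfold tv
        rw [if_neg (by omega)]
      rw [h5]
      exact line_lin _ _
  exact h1.unique h2

end Pool.Agent.Helper18.KPG
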